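import Mathlib

/-!
Normal Carleman operators on `L²(μ)`: the kernel is square-integrable in its first variable too.
-/

open MeasureTheory ENNReal

open scoped InnerProductSpace

namespace Pool.Agent.U247.CO

/-- Parseval in `ℝ≥0∞`. -/
theorem parseval {ι E : Type*} [NormedAddCommGroup E] [InnerProductSpace ℂ E]
    (b : HilbertBasis ι ℂ E) (x : E) : ∑' i, ‖⟪b i, x⟫_ℂ‖ₑ ^ 2 = ‖x‖ₑ ^ 2 := by
  have h := b.hasSum_inner_mul_inner x x
  have h2 : HasSum (fun i => ‖⟪b i, x⟫_ℂ‖ ^ 2) (‖x‖ ^ 2) := by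
    have h3 := (Complex.reCLM.hasSum h)
    have e1 : (fun i => Complex.reCLM (⟪x, b i⟫_ℂ * ⟪b i, x⟫_ℂ)) =
        fun i => ‖⟪b i, x⟫_ℂ‖ ^ 2 := by
      funext i
      rw [← inner_conj_symm x (b i), RCLike.conj_mul]
      simp only [Complex.reCLM_apply]
      norm_cast
    have e2 : Complex.reCLM ⟪x, x⟫_ℂ = ‖x‖ ^ 2 := by
      rw [inner_self_eq_norm_sq_to_K]
      simp only [Complex.reCLM_apply]
      norm_cast
    rw [← e1, ← e2]
    exact h3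
  have h4 : ∀ i, ‖⟪b i, x⟫_ℂ‖ₑ ^ 2 = ENNReal.ofReal (‖⟪b i, x⟫_ℂ‖ ^ 2) := by
    intro i
    rw [ENNReal.ofReal_pow (norm_nonneg _), ofReal_norm]
  rw [tsum_congr h4, ← ENNReal.ofReal_tsum_of_nonneg (fun i => by positivity) h2.summable,
    h2.tsum_eq, ENNReal.ofReal_pow (norm_nonneg _), ofReal_norm]

/-- Hilbert-Schmidt norms of an operator and its adjoint agree. -/
theorem hs_adjoint {ι E : Type*} [NormedAddCommGroup E] [InnerProductSpace ℂ E] [CompleteSpace E]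
    (b : HilbertBasis ι ℂ E) (T : E →L[ℂ] E) :
    ∑' i, ‖T (b i)‖ₑ ^ 2 = ∑' i, ‖(ContinuousLinearMap.adjoint T) (b i)‖ₑ ^ 2 := by
  have h1 : ∀ i, ‖T (b i)‖ₑ ^ 2 = ∑' j, ‖⟪b j, T (b i)⟫_ℂ‖ₑ ^ 2 := fun i => (parseval b _).symm
  have h2 : ∀ i, ‖(ContinuousLinearMap.adjoint T) (b i)‖ₑ ^ 2 =
      ∑' j, ‖⟪b j, (ContinuousLinearMap.adjoint T) (b i)⟫_ℂ‖ₑ ^ 2 := fun i => (parseval b _).symm
  rw [tsum_congr h1, tsum_congr h2, ENNReal.tsum_comm]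
  refine tsum_congr fun j => tsum_congr fun i => ?_
  rw [ContinuousLinearMap.adjoint_inner_right, ← inner_conj_symm (b j) (T (b i))]
  congr 1
  rw [← ofReal_norm, ← ofReal_norm, RCLike.norm_conj]

theorem countable_hilbertBasis {ι E : Type*} [NormedAddCommGroup E] [InnerProductSpace ℂ E]
    [TopologicalSpace.SeparableSpace E] (b : HilbertBasis ι ℂ E) : Countable ι := by
  have hd : Pairwise (Function.onFun Disjoint fun i => Metric.ball (b i) (1 / 2 : ℝ)) := by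
    intro i j hij
    apply Metric.ball_disjoint_ball
    have h1 : dist (b i) (b j) ^ 2 = 2 := by
      rw [dist_eq_norm, @norm_sub_sq ℂ]
      rw [b.orthonormal.2 hij]
      rw [b.orthonormal.1 i, b.orthonormal.1 j]
      norm_num
    have h2 : (1 : ℝ) ≤ dist (b i) (b j) := by
      by_contra hcon
      push Not at hcon
      have h0 : 0 ≤ dist (b i) (b j) := dist_nonneg
      nlinarith
    linarith
  exact hd.countable_of_isOpen_disjoint (fun i => Metric.isOpen_ball)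
    (fun i => ⟨b i, Metric.mem_ball_self (by norm_num)⟩)

variable {α : Type*} [MeasurableSpace α] {μ : Measure α}

theorem enorm_sq_eq_lintegral (f : Lp ℂ 2 μ) : ‖f‖ₑ ^ 2 = ∫⁻ x, ‖f x‖ₑ ^ 2 ∂μ := by
  rw [Lp.enorm_def, eLpNorm_eq_lintegral_rpow_enorm_toReal (by norm_num) (by norm_num)]
  rw [← ENNReal.rpow_natCast, ← ENNReal.rpow_mul]
  simp

theorem memLp_iff_lintegral {f : α → ℂ} (hf : AEStronglyMeasurable f μ) :
    MemLp f 2 μ ↔ ∫⁻ x, ‖f x‖ₑ ^ 2 ∂μ < ∞ := by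
  rw [MemLp, eLpNorm_eq_lintegral_rpow_enorm_toReal (by norm_num) (by norm_num)]
  simp only [hf, true_and, ENNReal.toReal_ofNat, one_div]
  rw [ENNReal.rpow_lt_top_iff_of_pos (by norm_num)]
  simp

/-- restriction of an `L²` function to a measurable set -/
noncomputable def cut {X : Set α} (hX : MeasurableSet X) (f : Lp ℂ 2 μ) : Lp ℂ 2 μ :=
  ((Lp.memLp f).indicator hX).toLp

theorem cut_coe {X : Set α} (hX : MeasurableSet X) (f : Lp ℂ 2 μ) :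
    cut hX f =ᵐ[μ] X.indicator f := MemLp.coeFn_toLp _

theorem cut_adj {X : Set α} (hX : MeasurableSet X) (f g : Lp ℂ 2 μ) :
    ⟪cut hX f, g⟫_ℂ = ⟪f, cut hX g⟫_ℂ := by
  rw [L2.inner_def, L2.inner_def]
  apply integral_congr_ae
  filter_upwards [cut_coe hX f, cut_coe hX g] with x h1 h2
  rw [h1, h2]
  by_cases hx : x ∈ X
  · simp [hx]
  · simp [hx]

theorem enorm_cut {X : Set α} (hX : MeasurableSet X) (f : Lp ℂ 2 μ) :
    ‖cut hX f‖ₑ ^ 2 = ∫⁻ x in X, ‖f x‖ₑ ^ 2 ∂μ := by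
  rw [enorm_sq_eq_lintegral, ← lintegral_indicator hX]
  apply lintegral_congr_ae
  filter_upwards [cut_coe hX f] with x h1
  rw [h1]
  by_cases hx : x ∈ X
  · simp [hx]
  · simp [hx]

/-- `Σ_i ‖cut (T b_i)‖² = Σ_i ‖T* (cut b_i)‖²` -/
theorem hs_cut {ι : Type*} (b : HilbertBasis ι ℂ (Lp ℂ 2 μ)) (T : Lp ℂ 2 μ →L[ℂ] Lp ℂ 2 μ)
    {X : Set α} (hX : MeasurableSet X) :
    ∑' i, ‖cut hX (T (b i))‖ₑ ^ 2 =
      ∑' i, ‖(ContinuousLinearMap.adjoint T) (cut hX (b i))‖ₑ ^ 2 := by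
  have h1 : ∀ i, ‖cut hX (T (b i))‖ₑ ^ 2 = ∑' j, ‖⟪b j, cut hX (T (b i))⟫_ℂ‖ₑ ^ 2 :=
    fun i => (parseval b _).symm
  have h2 : ∀ i, ‖(ContinuousLinearMap.adjoint T) (cut hX (b i))‖ₑ ^ 2 =
      ∑' j, ‖⟪b j, (ContinuousLinearMap.adjoint T) (cut hX (b i))⟫_ℂ‖ₑ ^ 2 :=
    fun i => (parseval b _).symm
  rw [tsum_congr h1, tsum_congr h2, ENNReal.tsum_comm]
  refine tsum_congr fun j => tsum_congr fun i => ?_
  rw [ContinuousLinearMap.adjoint_inner_right, ← cut_adj,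
    ← inner_conj_symm (cut hX (b j)) (T (b i))]
  rw [← ofReal_norm, ← ofReal_norm, RCLike.norm_conj]

/-- The core statement for jointly measurable kernels. -/
theorem core [SFinite μ] [TopologicalSpace.SeparableSpace (Lp ℂ 2 μ)]
    (T : Lp ℂ 2 μ →L[ℂ] Lp ℂ 2 μ) (hT : ∀ f, ‖(ContinuousLinearMap.adjoint T) f‖ = ‖T f‖)
    (ν : α → α → ℂ) (hν : StronglyMeasurable (Function.uncurry ν))
    (h2 : ∀ᵐ x ∂μ, MemLp (ν x) 2 μ)
    (hker : ∀ f : Lp ℂ 2 μ, ∀ᵐ x ∂μ, T f x = ∫ y, ν x y * f y ∂μ)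
    {X : Set α} (hX : MeasurableSet X)
    (hfin : ∫⁻ x in X, ∫⁻ y, ‖ν x y‖ₑ ^ 2 ∂μ ∂μ < ∞) :
    ∀ᵐ y ∂μ, y ∈ X → MemLp (fun x => ν x y) 2 μ := by
  obtain ⟨w, b, -⟩ := exists_hilbertBasis ℂ (Lp ℂ 2 μ)
  have : Countable w := countable_hilbertBasis b
  -- the conjugated rows
  have hconj : ∀ x, MemLp (ν x) 2 μ → MemLp (fun y => (starRingEnd ℂ) (ν x y)) 2 μ := by
    intro x hx
    exact hx.star
  let r : α → Lp ℂ 2 μ := fun x => by
    classical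
    exact if hx : MemLp (ν x) 2 μ then (hconj x hx).toLp else 0
  have hr : ∀ x (hx : MemLp (ν x) 2 μ), r x =ᵐ[μ] fun y => (starRingEnd ℂ) (ν x y) := by
    intro x hx
    have : r x = (hconj x hx).toLp := dif_pos hx
    rw [this]
    exact MemLp.coeFn_toLp _
  have hinner : ∀ x (hx : MemLp (ν x) 2 μ) (f : Lp ℂ 2 μ), ⟪r x, f⟫_ℂ = ∫ y, ν x y * f y ∂μ := by
    intro x hx f
    rw [L2.inner_def]
    apply integral_congr_ae
    filter_upwards [hr x hx] with y hy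
    rw [hy]
    simp [mul_comm]
  have hnorm : ∀ x (hx : MemLp (ν x) 2 μ), ‖r x‖ₑ ^ 2 = ∫⁻ y, ‖ν x y‖ₑ ^ 2 ∂μ := by
    intro x hx
    rw [enorm_sq_eq_lintegral]
    apply lintegral_congr_ae
    filter_upwards [hr x hx] with y hy
    rw [hy, ← ofReal_norm, ← ofReal_norm, RCLike.norm_conj]
  have hnormX : ∀ x (hx : MemLp (ν x) 2 μ), ‖cut hX (r x)‖ₑ ^ 2 = ∫⁻ y in X, ‖ν x y‖ₑ ^ 2 ∂μ := by
    intro x hx
    rw [enorm_cut]
    apply setLIntegral_congr_fun_ae hX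
    filter_upwards [hr x hx] with y hy _
    rw [hy, ← ofReal_norm, ← ofReal_norm, RCLike.norm_conj]
  -- all basis vectors at once
  have hall : ∀ᵐ x ∂μ, ∀ i, T (b i) x = ⟪r x, b i⟫_ℂ := by
    rw [ae_all_iff]
    intro i
    filter_upwards [hker (b i), h2] with x hx hx2
    rw [hx, hinner x hx2]
  have hallX : ∀ᵐ x ∂μ, ∀ i, T (cut hX (b i)) x = ⟪r x, cut hX (b i)⟫_ℂ := by
    rw [ae_all_iff]
    intro i
    filter_upwards [hker (cut hX (b i)), h2] with x hx hx2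
    rw [hx, hinner x hx2]
  have hsym : ∀ u v : Lp ℂ 2 μ, ‖⟪u, v⟫_ℂ‖ₑ = ‖⟪v, u⟫_ℂ‖ₑ := by
    intro u v
    rw [← inner_conj_symm u v, ← ofReal_norm, ← ofReal_norm, RCLike.norm_conj]
  -- first Hilbert-Schmidt norm
  have hs1 : ∑' i, ‖cut hX (T (b i))‖ₑ ^ 2 = ∫⁻ x in X, ∫⁻ y, ‖ν x y‖ₑ ^ 2 ∂μ ∂μ := by
    have e1 : ∀ i, ‖cut hX (T (b i))‖ₑ ^ 2 = ∫⁻ x in X, ‖T (b i) x‖ₑ ^ 2 ∂μ :=
      fun i => enorm_cut hX _
    rw [tsum_congr e1, ← lintegral_tsum]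
    · apply lintegral_congr_ae
      filter_upwards [ae_restrict_of_ae hall, ae_restrict_of_ae h2] with x hx hx2
      rw [← hnorm x hx2, ← parseval b (r x)]
      refine tsum_congr fun i => ?_
      rw [hx i, hsym]
    · intro i
      exact ((Lp.aestronglyMeasurable (T (b i))).enorm.pow_const 2).restrict
  -- second Hilbert-Schmidt norm
  have hs2 : ∑' i, ‖T (cut hX (b i))‖ₑ ^ 2 = ∫⁻ x, ∫⁻ y in X, ‖ν x y‖ₑ ^ 2 ∂μ ∂μ := by
    have e1 : ∀ i, ‖T (cut hX (b i))‖ₑ ^ 2 = ∫⁻ x, ‖T (cut hX (b i)) x‖ₑ ^ 2 ∂μ :=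
      fun i => enorm_sq_eq_lintegral _
    rw [tsum_congr e1, ← lintegral_tsum]
    · apply lintegral_congr_ae
      filter_upwards [hallX, h2] with x hx hx2
      rw [← hnormX x hx2, ← parseval b (cut hX (r x))]
      refine tsum_congr fun i => ?_
      rw [hx i, hsym, cut_adj]
    · intro i
      exact (Lp.aestronglyMeasurable (T (cut hX (b i)))).enorm.pow_const 2
  have hkey : ∫⁻ x, ∫⁻ y in X, ‖ν x y‖ₑ ^ 2 ∂μ ∂μ < ∞ := by
    rw [← hs2]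
    have e : ∀ i, ‖T (cut hX (b i))‖ₑ ^ 2 =
        ‖(ContinuousLinearMap.adjoint T) (cut hX (b i))‖ₑ ^ 2 := by
      intro i
      rw [← ofReal_norm, ← ofReal_norm, hT]
    rw [tsum_congr e, ← hs_cut b T hX, hs1]
    exact hfin
  have hmeas : Measurable (fun z : α × α => ‖ν z.1 z.2‖ₑ ^ 2) :=
    (hν.enorm.pow_const 2)
  rw [lintegral_lintegral_swap hmeas.aemeasurable] at hkey
  have h3 : ∀ᵐ y ∂(μ.restrict X), ∫⁻ x, ‖ν x y‖ₑ ^ 2 ∂μ < ∞ := by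
    apply ae_lt_top _ hkey.ne
    exact Measurable.lintegral_prod_left' hmeas
  rw [ae_restrict_iff' hX] at h3
  filter_upwards [h3] with y hy hyX
  rw [memLp_iff_lintegral]
  · exact hy hyX
  · exact (hν.comp_measurable measurable_prodMk_right).aestronglyMeasurable

end Pool.Agent.U247.CO
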