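import Mathlib
import Pool.Agent.U247.CO.Core

open MeasureTheory ENNReal

open scoped InnerProductSpace

namespace Pool.Agent.U247.CO

variable {α : Type*} [MeasurableSpace α] {μ : Measure α}

theorem norm_adjoint_of_normal {E : Type*} [NormedAddCommGroup E] [InnerProductSpace ℂ E]
    [CompleteSpace E] (T : E →L[ℂ] E)
    (hT : (ContinuousLinearMap.adjoint T) ∘L T = T ∘L (ContinuousLinearMap.adjoint T)) (f : E) :
    ‖(ContinuousLinearMap.adjoint T) f‖ = ‖T f‖ := by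
  have h1 : ⟪(ContinuousLinearMap.adjoint T) f, (ContinuousLinearMap.adjoint T) f⟫_ℂ
      = ⟪T f, T f⟫_ℂ := by
    rw [ContinuousLinearMap.adjoint_inner_left, ← ContinuousLinearMap.adjoint_inner_right T f (T f)]
    have h2 := congrArg (fun S : E →L[ℂ] E => S f) hT
    simp only [ContinuousLinearMap.comp_apply] at h2
    rw [h2]
  rw [inner_self_eq_norm_sq_to_K, inner_self_eq_norm_sq_to_K] at h1
  have h3 : ‖(ContinuousLinearMap.adjoint T) f‖ ^ 2 = ‖T f‖ ^ 2 := by exact_mod_cast h1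
  exact (sq_eq_sq₀ (norm_nonneg _) (norm_nonneg _)).1 h3

theorem normal_carleman [SigmaFinite μ] [TopologicalSpace.SeparableSpace (Lp ℂ 2 μ)]
    (T : Lp ℂ 2 μ →L[ℂ] Lp ℂ 2 μ)
    (hT : (ContinuousLinearMap.adjoint T) ∘L T = T ∘L (ContinuousLinearMap.adjoint T))
    (ν : α → α → ℂ) (hν : AEStronglyMeasurable (Function.uncurry ν) (μ.prod μ))
    (h2 : ∀ᵐ x ∂μ, ∫⁻ y, ‖ν x y‖ₑ ^ 2 ∂μ < ∞)
    (hker : ∀ f : Lp ℂ 2 μ, ∀ᵐ x ∂μ, T f x = ∫ y, ν x y * f y ∂μ) :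
    ∀ᵐ y ∂μ, ∫⁻ x, ‖ν x y‖ₑ ^ 2 ∂μ < ∞ := by
  -- a jointly measurable version of the kernel
  let ν' : α → α → ℂ := fun x y => hν.mk _ (x, y)
  have hν' : StronglyMeasurable (Function.uncurry ν') := hν.stronglyMeasurable_mk
  have hae : ∀ᵐ x ∂μ, ∀ᵐ y ∂μ, ν x y = ν' x y := Measure.ae_ae_of_ae_prod hν.ae_eq_mk
  have hae' : ∀ᵐ y ∂μ, ∀ᵐ x ∂μ, ν x y = ν' x y := by
    have h := Measure.ae_ae_of_ae_prod
      ((Measure.measurePreserving_swap (μ := μ) (ν := μ)).quasiMeasurePreserving.ae hν.ae_eq_mk)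
    exact h
  have h2' : ∀ᵐ x ∂μ, ∫⁻ y, ‖ν' x y‖ₑ ^ 2 ∂μ < ∞ := by
    filter_upwards [h2, hae] with x hx hx2
    have : ∫⁻ y, ‖ν' x y‖ₑ ^ 2 ∂μ = ∫⁻ y, ‖ν x y‖ₑ ^ 2 ∂μ := by
      apply lintegral_congr_ae
      filter_upwards [hx2] with y hy
      rw [hy]
    rw [this]; exact hx
  have h2'' : ∀ᵐ x ∂μ, MemLp (ν' x) 2 μ := by
    filter_upwards [h2'] with x hx
    rw [memLp_iff_lintegral]
    · exact hx
    · exact (hν'.comp_measurable measurable_prodMk_left).aestronglyMeasurable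
  have hker' : ∀ f : Lp ℂ 2 μ, ∀ᵐ x ∂μ, T f x = ∫ y, ν' x y * f y ∂μ := by
    intro f
    filter_upwards [hker f, hae] with x hx hx2
    rw [hx]
    apply integral_congr_ae
    filter_upwards [hx2] with y hy
    rw [hy]
  have hmeas : Measurable (fun z : α × α => ‖ν' z.1 z.2‖ₑ ^ 2) := (hν'.enorm.pow_const 2)
  have hk : Measurable (fun x => ∫⁻ y, ‖ν' x y‖ₑ ^ 2 ∂μ) := Measurable.lintegral_prod_right' hmeas
  let X : ℕ → Set α := fun n => {x | ∫⁻ y, ‖ν' x y‖ₑ ^ 2 ∂μ ≤ n} ∩ spanningSets μ n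
  have hX : ∀ n, MeasurableSet (X n) := fun n =>
    (measurableSet_le hk measurable_const).inter (measurableSet_spanningSets μ n)
  have hfin : ∀ n, ∫⁻ x in X n, ∫⁻ y, ‖ν' x y‖ₑ ^ 2 ∂μ ∂μ < ∞ := by
    intro n
    calc ∫⁻ x in X n, ∫⁻ y, ‖ν' x y‖ₑ ^ 2 ∂μ ∂μ ≤ ∫⁻ x in X n, (n : ℝ≥0∞) ∂μ := by
          apply setLIntegral_mono' (hX n)
          intro x hx
          exact hx.1
      _ = n * μ (X n) := by rw [setLIntegral_const]
      _ < ∞ := by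
          apply ENNReal.mul_lt_top (by simp)
          exact (measure_mono Set.inter_subset_right).trans_lt (measure_spanningSets_lt_top μ n)
  have hcore : ∀ᵐ y ∂μ, ∀ n, y ∈ X n → MemLp (fun x => ν' x y) 2 μ := by
    rw [ae_all_iff]
    intro n
    exact core T (norm_adjoint_of_normal T hT) ν' hν' h2'' hker' (hX n) (hfin n)
  filter_upwards [hcore, h2', hae'] with y hy hy2 hy3
  obtain ⟨n, hn⟩ : ∃ n : ℕ, y ∈ X n := by
    obtain ⟨n1, hn1⟩ := ENNReal.exists_nat_gt hy2.ne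
    have hs : y ∈ ⋃ i, spanningSets μ i := by rw [iUnion_spanningSets]; trivial
    obtain ⟨n2, hn2⟩ := Set.mem_iUnion.1 hs
    refine ⟨max n1 n2, ?_, ?_⟩
    · exact hn1.le.trans (by exact_mod_cast le_max_left _ _)
    · exact monotone_spanningSets μ (le_max_right n1 n2) hn2
  have h4 := hy n hn
  rw [memLp_iff_lintegral h4.1] at h4
  have : ∫⁻ x, ‖ν x y‖ₑ ^ 2 ∂μ = ∫⁻ x, ‖ν' x y‖ₑ ^ 2 ∂μ := by
    apply lintegral_congr_ae
    filter_upwards [hy3] with x hx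
    rw [hx]
  rw [this]
  exact h4

end Pool.Agent.U247.CO
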